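import Mathlib

/-!
# Union-closed families generated by connected sets with at most two attachments
-/

set_option autoImplicit false

namespace Pool.Agent.U112.UCT

open SimpleGraph Finset

variable {V : Type*} (G : SimpleGraph V)

/-- `v` can be reached from `r` by a walk avoiding `P` -/
def Reach (P : Set V) (r v : V) : Prop := ∃ w : G.Walk r v, ∀ x ∈ w.support, x ∉ P

/-- the vertices of `P` with a neighbour that can be reached from `r` by a walk avoiding `P` -/
def attach (P : Set V) (r : V) : Set V := {p | p ∈ P ∧ ∃ c, G.Adj p c ∧ Reach G P r c}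

/-- every edge lies on at most one cycle -/
def IsCactus : Prop := ∀ (u v : V) (c : G.Walk u u) (c' : G.Walk v v), c.IsCycle → c'.IsCycle →
  (∃ e, e ∈ c.edges ∧ e ∈ c'.edges) → ∀ f, f ∈ c.edges ↔ f ∈ c'.edges

variable {G}

lemma Reach.not_mem {P : Set V} {r v : V} (h : Reach G P r v) : v ∉ P := by
  obtain ⟨w, hw⟩ := h
  exact hw v w.end_mem_support

lemma Reach.step {P : Set V} {r a b : V} (h : Reach G P r a) (hab : G.Adj a b) (hb : b ∉ P) :
    Reach G P r b := by
  obtain ⟨w, hw⟩ := h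
  refine ⟨w.concat hab, fun x hx => ?_⟩
  rw [Walk.support_concat, List.mem_append] at hx
  rcases hx with hx | hx
  · exact hw x hx
  · rw [List.mem_singleton] at hx
    rw [hx]; exact hb

lemma Reach.all {P : Set V} {r v : V} (w : G.Walk r v) (hw : ∀ x ∈ w.support, x ∉ P) :
    ∀ x ∈ w.support, Reach G P r x := by
  classical
  intro x hx
  exact ⟨w.takeUntil x hx, fun y hy => hw y (w.support_takeUntil_subset_support hx hy)⟩

/-- walks inside a connected set -/
lemma conn_walk {P : Set V} (h : (G.induce P).Connected) {x y : V} (hx : x ∈ P) (hy : y ∈ P) :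
    ∃ w : G.Walk x y, ∀ z ∈ w.support, z ∈ P := by
  have key : ∀ (a b : P) (w : (G.induce P).Walk a b), ∃ w : G.Walk a.1 b.1,
      ∀ z ∈ w.support, z ∈ P := by
    intro a b w
    induction w with
    | nil => exact ⟨Walk.nil, by simp⟩
    | cons h w ih =>
      rename_i u v z
      obtain ⟨w', hw'⟩ := ih
      have h' : G.Adj u.1 v.1 := h
      refine ⟨Walk.cons h' w', fun t ht => ?_⟩
      rw [Walk.support_cons, List.mem_cons] at ht
      rcases ht with rfl | ht
      · exact u.2
      · exact hw' t ht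
  obtain ⟨w⟩ := h.preconnected ⟨x, hx⟩ ⟨y, hy⟩
  exact key _ _ w

/-- a walk from the root side that does not use an attachment stays on the root side -/
lemma stay {P Q : Set V} {r : V} (hQ : ∀ s ∈ attach G P r, s ∉ Q) {a b : V} (w : G.Walk a b)
    (hw : ∀ x ∈ w.support, x ∈ Q) (ha : Reach G P r a) : Reach G P r b := by
  induction w with
  | nil => exact ha
  | cons h w ih =>
    rename_i u v z
    have hv : v ∈ Q := hw v (by simp)
    have hvP : v ∉ P := fun hv' => hQ v ⟨hv', u, h.symm, ha⟩ hv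
    exact ih (fun x hx => hw x (by rw [Walk.support_cons]; exact List.mem_cons_of_mem _ hx))
      (ha.step h hvP)

/-- attachments exist -/
lemma attach_ne {P : Set V} {r a b : V} (w : G.Walk a b) (ha : Reach G P r a) (hb : b ∈ P) :
    (attach G P r).Nonempty := by
  induction w with
  | nil => exact absurd hb ha.not_mem
  | cons h w ih =>
    rename_i u v z
    by_cases hv : v ∈ P
    · exact ⟨v, hv, u, h.symm, ha⟩
    · exact ih (ha.step h hv) hb

/-- a connected set meeting `P` and avoiding the attachments of `P` leaves more room for the root -/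
lemma room {P Q : Set V} {r x : V} (hQc : (G.induce Q).Connected) (hxP : x ∈ P) (hxQ : x ∈ Q)
    (hQ : ∀ s ∈ attach G P r, s ∉ Q) :
    (∀ v, Reach G P r v → Reach G Q r v) ∧ ∀ s ∈ attach G P r, Reach G Q r s := by
  have h1 : ∀ c, Reach G P r c → c ∉ Q := by
    intro c hc hcQ
    obtain ⟨w, hw⟩ := conn_walk hQc hcQ hxQ
    exact (stay hQ w hw hc).not_mem hxP
  have h2 : ∀ v, Reach G P r v → Reach G Q r v := by
    rintro v ⟨w, hw⟩
    exact ⟨w, fun y hy => h1 y (Reach.all w hw y hy)⟩
  refine ⟨h2, ?_⟩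
  rintro s ⟨hs, c, hsc, hc⟩
  exact (h2 c hc).step hsc.symm (hQ s ⟨hs, c, hsc, hc⟩)

/-- a cycle through two attachments -/
lemma mk_cycle {P : Set V} {r x₁ x₂ c₁ c₂ : V} (hP : (G.induce P).Connected) (h1 : x₁ ∈ P)
    (h2 : x₂ ∈ P) (hne : x₁ ≠ x₂) (a1 : G.Adj x₁ c₁) (a2 : G.Adj x₂ c₂) (r1 : Reach G P r c₁)
    (r2 : Reach G P r c₂) :
    ∃ c : G.Walk c₁ c₁, c.IsCycle ∧ s(x₁, c₁) ∈ c.edges ∧ s(x₂, c₂) ∈ c.edges ∧
      ∀ e ∈ c.edges, e = s(x₁, c₁) ∨ e = s(x₂, c₂) ∨ (∀ v ∈ e, v ∈ P) ∨ (∀ v ∈ e, v ∉ P) := by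
  classical
  obtain ⟨p0, hp0⟩ := conn_walk hP h1 h2
  set p := p0.bypass with hp
  have hpp : p.IsPath := p0.bypass_isPath
  have hps : ∀ z ∈ p.support, z ∈ P := fun z hz => hp0 z (p0.support_bypass_subset_support hz)
  obtain ⟨w1, hw1⟩ := r1
  obtain ⟨w2, hw2⟩ := r2
  set q := (w2.reverse.append w1).bypass with hq
  have hqp : q.IsPath := Walk.bypass_isPath _
  have hqs : ∀ z ∈ q.support, z ∉ P := by
    intro z hz
    have hz' := Walk.support_bypass_subset_support _ hz
    rw [Walk.mem_support_append_iff, Walk.support_reverse, List.mem_reverse] at hz'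
    rcases hz' with h | h
    · exact hw2 z h
    · exact hw1 z h
  have hc1 : c₁ ∉ P := hw1 _ w1.end_mem_support
  have hc2 : c₂ ∉ P := hw2 _ w2.end_mem_support
  set W : G.Walk x₁ c₁ := p.append (Walk.cons a2 q) with hW
  have hWp : W.IsPath := by
    rw [Walk.isPath_def, hW, Walk.support_append, Walk.support_cons, List.tail_cons,
      List.nodup_append]
    refine ⟨hpp.support_nodup, hqp.support_nodup, ?_⟩
    intro a ha b hb hab
    exact hqs b hb (hab ▸ hps a ha)
  have hedge : ∀ e ∈ W.edges, e = s(x₂, c₂) ∨ (∀ v ∈ e, v ∈ P) ∨ (∀ v ∈ e, v ∉ P) := by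
    intro e he
    rw [hW, Walk.edges_append, Walk.edges_cons, List.mem_append, List.mem_cons] at he
    rcases he with he | he | he
    · right; left
      intro v hv
      induction e with
      | _ a b =>
        rw [Sym2.mem_iff] at hv
        rcases hv with rfl | rfl
        · exact hps _ (Walk.fst_mem_support_of_mem_edges _ he)
        · exact hps _ (Walk.snd_mem_support_of_mem_edges _ he)
    · left; exact he
    · right; right
      intro v hv
      induction e with
      | _ a b =>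
        rw [Sym2.mem_iff] at hv
        rcases hv with rfl | rfl
        · exact hqs _ (Walk.fst_mem_support_of_mem_edges _ he)
        · exact hqs _ (Walk.snd_mem_support_of_mem_edges _ he)
  have hnot : s(c₁, x₁) ∉ W.edges := by
    intro he
    rcases hedge _ he with h | h | h
    · rw [Sym2.eq_iff] at h
      rcases h with ⟨h, h'⟩ | ⟨h, h'⟩
      · exact hc1 (h ▸ h2)
      · exact hne h'
    · exact hc1 (h c₁ (Sym2.mem_mk_left _ _))
    · exact h x₁ (Sym2.mem_mk_right _ _) h1
  refine ⟨Walk.cons a1.symm W, ?_, ?_, ?_, ?_⟩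
  · rw [Walk.cons_isCycle_iff]
    exact ⟨hWp, hnot⟩
  · rw [Walk.edges_cons, Sym2.eq_swap]
    exact List.mem_cons_self
  · rw [Walk.edges_cons, hW, Walk.edges_append, Walk.edges_cons]
    exact List.mem_cons_of_mem _ (List.mem_append_right _ List.mem_cons_self)
  · intro e he
    rw [Walk.edges_cons, List.mem_cons] at he
    rcases he with he | he
    · left; rw [he, Sym2.eq_swap]
    · right; exact hedge e he

/-- in a cactus every connected set has at most two attachments -/
lemma cactus_attach [Finite V] (hC : IsCactus G) {P : Set V} {r : V}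
    (hP : (G.induce P).Connected) : (attach G P r).ncard ≤ 2 := by
  by_contra hcon
  push Not at hcon
  rw [Set.two_lt_ncard_iff (Set.toFinite _)] at hcon
  obtain ⟨x₁, x₂, x₃, ⟨h1, c₁, a1, r1⟩, ⟨h2, c₂, a2, r2⟩, ⟨h3, c₃, a3, r3⟩, h12, h13, h23⟩ := hcon
  obtain ⟨c, hc, e1, e2, hall⟩ := mk_cycle hP h1 h2 h12 a1 a2 r1 r2
  obtain ⟨c', hc', e1', e3', hall'⟩ := mk_cycle hP h1 h3 h13 a1 a3 r1 r3
  have h := (hC _ _ c c' hc hc' ⟨_, e1, e1'⟩ s(x₃, c₃)).2 e3'
  have n1 := r1.not_mem
  have n2 := r2.not_mem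
  have n3 := r3.not_mem
  rcases hall _ h with h | h | h | h
  · rw [Sym2.eq_iff] at h
    rcases h with ⟨h, h'⟩ | ⟨h, h'⟩
    · exact h13 h.symm
    · exact n1 (h ▸ h3)
  · rw [Sym2.eq_iff] at h
    rcases h with ⟨h, h'⟩ | ⟨h, h'⟩
    · exact h23 h.symm
    · exact n2 (h ▸ h3)
  · exact n3 (h c₃ (Sym2.mem_mk_right _ _))
  · exact h x₃ (Sym2.mem_mk_left _ _) h3

/-! ### counting -/

/-- two elements hitting what meets `P` -/
lemma count [DecidableEq V] (F : Finset (Finset V)) (hU : ∀ A ∈ F, ∀ B ∈ F, A ∪ B ∈ F)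
    (P : Finset V) (hP : P ∈ F) (y z : V) (hy : y ∈ P) (hz : z ∈ P)
    (h : ∀ A ∈ F, y ∉ A → z ∉ A → Disjoint A P) :
    ∃ x, F.card ≤ 2 * (F.filter (fun A => x ∈ A)).card := by
  have hinj : (F.filter (fun A => y ∉ A ∧ z ∉ A)).card ≤
      (F.filter (fun A => y ∈ A ∧ z ∈ A)).card := by
    apply Finset.card_le_card_of_injOn (fun A => A ∪ P)
    · intro A hA
      rw [Finset.mem_coe, Finset.mem_filter] at hA ⊢
      exact ⟨hU A hA.1 P hP, Finset.mem_union_right _ hy, Finset.mem_union_right _ hz⟩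
    · intro A hA B hB hAB
      rw [Finset.mem_coe, Finset.mem_filter] at hA hB
      have h1 := h A hA.1 hA.2.1 hA.2.2
      have h2 := h B hB.1 hB.2.1 hB.2.2
      have e1 : (A ∪ P) \ P = A := by
        rw [Finset.union_sdiff_right, Finset.sdiff_eq_self_of_disjoint h1]
      have e2 : (B ∪ P) \ P = B := by
        rw [Finset.union_sdiff_right, Finset.sdiff_eq_self_of_disjoint h2]
      have hAB' : A ∪ P = B ∪ P := hAB
      rw [← e1, ← e2, hAB']
  have hsum : (F.filter (fun A => y ∈ A)).card + (F.filter (fun A => z ∈ A)).card ≥ F.card := by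
    have h1 : (F.filter (fun A => y ∈ A)).card + (F.filter (fun A => z ∈ A)).card =
        (F.filter (fun A => y ∈ A ∨ z ∈ A)).card + (F.filter (fun A => y ∈ A ∧ z ∈ A)).card := by
      rw [Finset.filter_or, Finset.filter_and]
      exact (Finset.card_union_add_card_inter _ _).symm
    have h2 : (F.filter (fun A => y ∈ A ∨ z ∈ A)).card +
        (F.filter (fun A => ¬ (y ∈ A ∨ z ∈ A))).card = F.card :=
      Finset.card_filter_add_card_filter_not _
    have h3 : (F.filter (fun A => ¬ (y ∈ A ∨ z ∈ A))) =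
        F.filter (fun A => y ∉ A ∧ z ∉ A) := by
      apply Finset.filter_congr
      intro A _
      rw [not_or]
    rw [h3] at h2
    omega
  rcases le_total (F.filter (fun A => y ∈ A)).card (F.filter (fun A => z ∈ A)).card with h1 | h1
  · exact ⟨z, by omega⟩
  · exact ⟨y, by omega⟩

/-- **Main theorem.** -/
theorem main [Finite V] [DecidableEq V] (hG : G.Connected) (r : V) (F : Finset (Finset V))
    (hU : ∀ A ∈ F, ∀ B ∈ F, A ∪ B ∈ F) (hne : F ≠ {∅})
    (hgen : ∀ A ∈ F, ∀ x ∈ A, ∃ P ∈ F, x ∈ P ∧ P ⊆ A ∧ (G.induce (P : Set V)).Connected ∧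
      (IsCactus G ∨ (attach G (P : Set V) r).ncard ≤ 2)) :
    ∃ x, F.card ≤ 2 * (F.filter (fun A => x ∈ A)).card := by
  classical
  -- the generators
  set gens := F.filter (fun P : Finset V => P.Nonempty ∧ (G.induce (P : Set V)).Connected ∧
    (attach G (P : Set V) r).ncard ≤ 2) with hgens
  have hgen' : ∀ A ∈ F, ∀ x ∈ A, ∃ P ∈ gens, x ∈ P ∧ P ⊆ A := by
    intro A hA x hx
    obtain ⟨P, hP, hxP, hPA, hc, hatt⟩ := hgen A hA x hx
    refine ⟨P, ?_, hxP, hPA⟩
    rw [hgens, Finset.mem_filter]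
    refine ⟨hP, ⟨x, hxP⟩, hc, ?_⟩
    rcases hatt with h | h
    · exact cactus_attach h hc
    · exact h
  rcases F.eq_empty_or_nonempty with hF | hF
  · exact ⟨r, by rw [hF]; simp⟩
  obtain ⟨A0, hA0, hA0n⟩ : ∃ A ∈ F, A.Nonempty := by
    by_contra hcon
    push Not at hcon
    apply hne
    ext A
    rw [Finset.mem_singleton]
    constructor
    · intro hA; exact hcon A hA
    · rintro rfl
      obtain ⟨B, hB⟩ := hF
      rw [← hcon B hB]; exact hB
  obtain ⟨x0, hx0⟩ := hA0n
  obtain ⟨P0, hP0, -⟩ := hgen' A0 hA0 x0 hx0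
  obtain ⟨P, hP, hmax⟩ := Finset.exists_max_image gens
    (fun P : Finset V => {v | Reach G (P : Set V) r v}.ncard) ⟨P0, hP0⟩
  have hP' := hP
  rw [hgens, Finset.mem_filter] at hP'
  obtain ⟨hPF, ⟨p, hp⟩, hPc, hPatt⟩ := hP'
  by_cases hr : r ∈ P
  · -- all generators contain the root
    have hall : ∀ Q ∈ gens, r ∈ Q := by
      intro Q hQ
      by_contra hrQ
      have h1 := hmax Q hQ
      have h2 : {v | Reach G (P : Set V) r v} = ∅ := by
        ext v
        simp only [Set.mem_ofPred_eq, Set.mem_empty_iff_false, iff_false]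
        rintro ⟨w, hw⟩
        exact hw r w.start_mem_support hr
      have h3 : r ∈ {v | Reach G (Q : Set V) r v} :=
        ⟨Walk.nil, fun x hx => by
          rw [Walk.support_nil, List.mem_singleton] at hx
          rw [hx]; exact hrQ⟩
      have h4 : 0 < {v | Reach G (Q : Set V) r v}.ncard :=
        (Set.ncard_pos (Set.toFinite _)).2 ⟨r, h3⟩
      rw [h2, Set.ncard_empty] at h1
      omega
    apply count F hU P hPF r r hr hr
    intro A hA hrA _
    rw [Finset.disjoint_left]
    intro x hxA _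
    obtain ⟨Q, hQ, hxQ, hQA⟩ := hgen' A hA x hxA
    exact hrA (hQA (hall Q hQ))
  · have hrr : Reach G (P : Set V) r r := ⟨Walk.nil, fun x hx => by
      rw [Walk.support_nil, List.mem_singleton] at hx
      rw [hx]; exact hr⟩
    obtain ⟨w⟩ := hG.preconnected r p
    obtain ⟨s0, hs0⟩ := attach_ne (P := (P : Set V)) w hrr (Finset.mem_coe.2 hp)
    -- the two attachments
    obtain ⟨y, z, hy, hz, hyz⟩ : ∃ y z, y ∈ attach G (P : Set V) r ∧
        z ∈ attach G (P : Set V) r ∧ ∀ s ∈ attach G (P : Set V) r, s = y ∨ s = z := by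
      by_cases h : ∃ z ∈ attach G (P : Set V) r, z ≠ s0
      · obtain ⟨z, hz, hzs⟩ := h
        refine ⟨s0, z, hs0, hz, ?_⟩
        intro s hs
        by_contra hcon
        push Not at hcon
        have h3 : 2 < (attach G (P : Set V) r).ncard := by
          rw [Set.two_lt_ncard_iff (Set.toFinite _)]
          exact ⟨s0, z, s, hs0, hz, hs, hzs.symm, hcon.1.symm, hcon.2.symm⟩
        omega
      · push Not at h
        exact ⟨s0, s0, hs0, hs0, fun s hs => Or.inl (h s hs)⟩
    apply count F hU P hPF y z hy.1 hz.1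
    intro A hA hyA hzA
    rw [Finset.disjoint_left]
    intro x hxA hxP
    obtain ⟨Q, hQ, hxQ, hQA⟩ := hgen' A hA x hxA
    have hQ' := hQ
    rw [hgens, Finset.mem_filter] at hQ'
    have hav : ∀ s ∈ attach G (P : Set V) r, s ∉ (Q : Set V) := by
      intro s hs hsQ
      rcases hyz s hs with rfl | rfl
      · exact hyA (hQA hsQ)
      · exact hzA (hQA hsQ)
    obtain ⟨k1, k2⟩ := room (P := (P : Set V)) (Q := (Q : Set V)) hQ'.2.2.1
      (Finset.mem_coe.2 hxP) (Finset.mem_coe.2 hxQ) hav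
    have hlt : {v | Reach G (P : Set V) r v}.ncard < {v | Reach G (Q : Set V) r v}.ncard := by
      have hsub : {v | Reach G (P : Set V) r v} ⊆ {v | Reach G (Q : Set V) r v} :=
        fun v hv => k1 v hv
      have hy' : y ∈ {v | Reach G (Q : Set V) r v} := k2 y hy
      refine Set.ncard_lt_ncard (hsub.ssubset_of_ne ?_) (Set.toFinite _)
      intro he
      rw [← he] at hy'
      exact Reach.not_mem hy' hy.1
    have := hmax Q hQ
    omega

end Pool.Agent.U112.UCT
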